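import Pool.Agent.Helper72.RA.Defs

set_option autoImplicit false

namespace Pool.Agent.Helper72.RA.CELLREG

open Real Finset MeasureTheory Filter

open scoped Classical

theorem class_lo (n j : ℕ) (hj : j < 4) :
    n / 4 ≤ (univ.filter fun t : Fin n => (t : ℕ) % 4 = j).card := by
  have h1 : (univ : Finset (Fin (n / 4))).card = n / 4 := by simp
  rw [← h1]
  apply Finset.card_le_card_of_injOn (fun s : Fin (n / 4) => (⟨4 * s + j, by omega⟩ : Fin n))
  · intro s _
    simp only [Finset.coe_filter, Finset.mem_univ, true_and, Set.mem_ofPred_eq]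
    omega
  · intro s _ s' _ h
    have := congrArg Fin.val h
    simp only at this
    exact Fin.ext (by omega)

theorem class_hi (n j : ℕ) :
    (univ.filter fun t : Fin n => (t : ℕ) % 4 = j).card ≤ n / 4 + 1 := by
  have h1 : (univ : Finset (Fin (n / 4 + 1))).card = n / 4 + 1 := by simp
  rw [← h1]
  apply Finset.card_le_card_of_injOn (fun t : Fin n => (⟨(t : ℕ) / 4, by omega⟩ : Fin (n / 4 + 1)))
  · intro s _
    simp
  · intro s hs s' hs' h
    have h2 := congrArg Fin.val h
    simp only at h2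
    simp only [Finset.coe_filter, Finset.mem_univ, true_and, Set.mem_ofPred_eq] at hs hs'
    exact Fin.ext (by omega)

/-- number of targets in one pool -/
theorem pool (m j : ℕ) (hj : j < 4) (hm : 100000 ≤ m) :
    9999 / 10000 * ((m : ℝ) ^ 2 / 8) ≤
      ((univ.filter fun t : Fin (NN m) => (t : ℕ) % 4 = j).card : ℝ) ∧
    ((univ.filter fun t : Fin (NN m) => (t : ℕ) % 4 = j).card : ℝ) ≤
      10001 / 10000 * ((m : ℝ) ^ 2 / 8) := by
  have h1 := class_lo (NN m) j hj
  have h1' := class_hi (NN m) j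
  have h2 : m.choose 2 * 2 = m * (m - 1) := by
    rw [Nat.choose_two_right]
    exact Nat.div_mul_cancel (Nat.even_mul_pred_self m).two_dvd
  obtain ⟨k, rfl⟩ : ∃ k, m = k + 1 := ⟨m - 1, by omega⟩
  simp only [Nat.add_sub_cancel] at h2
  have h4 : NN (k + 1) + 1 = (k + 1).choose 2 := by
    unfold NN
    have : 1 ≤ (k + 1).choose 2 := by nlinarith
    omega
  have h5 : ((NN (k + 1) : ℕ) : ℝ) * 2 + 2 = ((k : ℝ) + 1) * k := by
    have : NN (k + 1) * 2 + 2 = (k + 1) * k := by rw [← h2, ← h4]; ring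
    exact_mod_cast this
  have h6 : ((NN (k + 1) : ℕ) : ℝ) ≤ 4 * ((NN (k + 1) / 4 : ℕ) : ℝ) + 3 := by
    have : NN (k + 1) ≤ 4 * (NN (k + 1) / 4) + 3 := by omega
    exact_mod_cast this
  have h7 : 4 * ((NN (k + 1) / 4 : ℕ) : ℝ) ≤ ((NN (k + 1) : ℕ) : ℝ) := by
    have : 4 * (NN (k + 1) / 4) ≤ NN (k + 1) := by omega
    exact_mod_cast this
  have h8 : ((NN (k + 1) / 4 : ℕ) : ℝ) ≤
      ((univ.filter fun t : Fin (NN (k + 1)) => (t : ℕ) % 4 = j).card : ℝ) := by
    exact_mod_cast h1
  have h9 : ((univ.filter fun t : Fin (NN (k + 1)) => (t : ℕ) % 4 = j).card : ℝ) ≤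
      ((NN (k + 1) / 4 : ℕ) : ℝ) + 1 := by
    exact_mod_cast h1'
  have hk : (99999 : ℝ) ≤ k := by
    have h10 : 100000 ≤ k + 1 := hm
    have h11 : ((100000 : ℕ) : ℝ) ≤ ((k + 1 : ℕ) : ℝ) := Nat.cast_le.mpr h10
    rw [Nat.cast_add, Nat.cast_one, Nat.cast_ofNat] at h11
    linarith
  rw [Nat.cast_add, Nat.cast_one]
  have hkk : 0 ≤ ((k : ℝ) + 1) * ((k : ℝ) - 99999) := mul_nonneg (by linarith) (by linarith)
  clear h1 h1' h2 h4 hm
  constructor
  · nlinarith only [hkk, h5, h6, h7, h8, hk]
  · nlinarith only [hkk, h5, h6, h7, h9, hk]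

theorem st_CELLREG : ST_CELLREG := by
  filter_upwards [eventually_ge_atTop 10] with q hq m hm1 hm2 θ hθ hreg j hj x y hx hy hxy
  have hq' : (10 : ℝ) ≤ q := by exact_mod_cast hq
  have hq0 : (0 : ℝ) < q := by linarith
  have hm : 100000 ≤ m := by
    calc 100000 ≤ 10 ^ 5 := by norm_num
      _ ≤ q ^ 5 := Nat.pow_le_pow_left hq 5
      _ ≤ q ^ 1000 := Nat.pow_le_pow_right (by omega) (by norm_num)
      _ ≤ m := hm1
  obtain ⟨hn1, hn2⟩ := pool m j hj hm
  set Q : ℝ := (q : ℝ) ^ 1980 with hQ
  have hQ0 : 0 < Q := by positivity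
  have hπ := Real.pi_pos
  set h : ℝ := π / Q with hh
  have hh0 : 0 < h := div_pos hπ hQ0
  set n : ℝ := ((univ.filter fun t : Fin (NN m) => (t : ℕ) % 4 = j).card : ℝ) with hn
  have hn0 : 0 ≤ n := Nat.cast_nonneg _
  obtain ⟨Ce, hCe⟩ : ∃ Ce : ℕ → Finset (Fin (NN m)), ∀ i, Ce i =
      univ.filter fun t : Fin (NN m) => (t : ℕ) % 4 = j ∧
        (i : ℝ) * h < θ t ∧ θ t ≤ ((i : ℝ) + 1) * h := ⟨_, fun _ => rfl⟩
  have hC : ∀ i < q ^ 1980, 99 / 100 * (n / Q) ≤ ((Ce i).card : ℝ) ∧
      ((Ce i).card : ℝ) ≤ 101 / 100 * (n / Q) := by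
    intro i hi
    have h1 := hreg j hj i hi
    rw [← hCe] at h1
    have h2 := abs_le.mp h1
    constructor
    · linarith [h2.1]
    · linarith [h2.2]
  set S : Finset (Fin (NN m)) := univ.filter fun t : Fin (NN m) =>
    (t : ℕ) % 4 = j ∧ x ≤ θ t ∧ θ t ≤ y with hS
  have hcnt : cnt j θ x y = S.card := rfl
  rw [hcnt]
  set r : ℝ := (y - x) / h with hr
  have hrQ : r / Q = (y - x) / π := by
    rw [hr, hh]
    field_simp
  have hr1 : 100000 ≤ r := by
    rw [hr, le_div_iff₀ hh0]
    have h1 : qi q 1970 = (q : ℝ) ^ 10 / Q := by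
      rw [qi, hQ, eq_div_iff (by positivity), inv_mul_eq_div, div_eq_iff (by positivity), ← pow_add]
    have h2 : (q : ℝ) ^ 10 / Q ≤ y - x := by rw [← h1]; exact hxy
    refine le_trans ?_ h2
    rw [hh, mul_div_assoc']
    apply div_le_div_of_nonneg_right _ hQ0.le
    have h3 : (10 : ℝ) ^ 10 ≤ (q : ℝ) ^ 10 := pow_le_pow_left₀ (by norm_num) hq' 10
    have h4 := Real.pi_lt_four
    norm_num at h3
    linarith
  have hyQ : y / h ≤ ((q ^ 1980 : ℕ) : ℝ) := by
    rw [div_le_iff₀ hh0, hh, Nat.cast_pow, ← hQ, mul_div_assoc', mul_div_cancel_left₀ _ hQ0.ne']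
    exact hy
  have key : (r - 2) * (99 / 100 * (n / Q)) ≤ (S.card : ℝ) ∧
      (S.card : ℝ) ≤ (r + 2) * (101 / 100 * (n / Q)) := by
    constructor
    · -- lower bound
      set a := ⌈x / h⌉₊ with ha
      set b := ⌊y / h⌋₊ with hb
      have ha1 : (a : ℝ) < x / h + 1 := Nat.ceil_lt_add_one (div_nonneg hx hh0.le)
      have hb1 : y / h < (b : ℝ) + 1 := Nat.lt_floor_add_one _
      have hyx : y / h - x / h = r := by rw [hr, sub_div]
      have hab : a ≤ b := by
        have : (a : ℝ) < (b : ℝ) + 1 := by linarith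
        exact_mod_cast Nat.lt_succ_iff.mp (by exact_mod_cast this)
      have hsub : (Finset.Ico a b).biUnion Ce ⊆ S := by
        intro t ht
        obtain ⟨i, hi, ht⟩ := Finset.mem_biUnion.mp ht
        rw [Finset.mem_Ico] at hi
        rw [hCe, Finset.mem_filter] at ht
        rw [hS, Finset.mem_filter]
        refine ⟨Finset.mem_univ _, ht.2.1, ?_, ?_⟩
        · have h1 : x / h ≤ (i : ℝ) := (Nat.le_ceil _).trans (by exact_mod_cast hi.1)
          rw [div_le_iff₀ hh0] at h1
          exact h1.trans ht.2.2.1.le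
        · have h1 : ((i : ℝ) + 1) ≤ y / h := by
            have h2 : ((i + 1 : ℕ) : ℝ) ≤ y / h := by
              refine le_trans ?_ (Nat.floor_le (div_nonneg (by
                have := hxy
                have h3 : 0 ≤ qi q 1970 := by unfold qi; positivity
                linarith) hh0.le))
              exact_mod_cast hi.2
            push_cast at h2
            exact h2
          rw [le_div_iff₀ hh0] at h1
          exact ht.2.2.2.trans h1
      have hdis : ∀ i ∈ Finset.Ico a b, ∀ i' ∈ Finset.Ico a b, i ≠ i' →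
          Disjoint (Ce i) (Ce i') := by
        intro i _ i' _ hne
        rw [Finset.disjoint_left]
        intro t ht ht'
        rw [hCe, Finset.mem_filter] at ht ht'
        have h1 : (i : ℝ) < (i' : ℝ) + 1 := by
          have := ht.2.2.1.trans_le ht'.2.2.2
          exact lt_of_mul_lt_mul_right this hh0.le
        have h2 : (i' : ℝ) < (i : ℝ) + 1 := by
          have := ht'.2.2.1.trans_le ht.2.2.2
          exact lt_of_mul_lt_mul_right this hh0.le
        have h3 : i < i' + 1 := by exact_mod_cast h1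
        have h4 : i' < i + 1 := by exact_mod_cast h2
        omega
      have hcard : ((Finset.Ico a b).card : ℝ) * (99 / 100 * (n / Q)) ≤ (S.card : ℝ) := by
        have h1 : (∑ i ∈ Finset.Ico a b, (Ce i).card : ℕ) ≤ S.card := by
          rw [← Finset.card_biUnion hdis]
          exact Finset.card_le_card hsub
        have h2 : (∑ i ∈ Finset.Ico a b, ((Ce i).card : ℝ)) ≤ (S.card : ℝ) := by
          exact_mod_cast h1
        refine le_trans ?_ h2
        rw [← nsmul_eq_mul, ← Finset.sum_const]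
        apply Finset.sum_le_sum
        intro i hi
        rw [Finset.mem_Ico] at hi
        apply (hC i _).1
        have h3 : (i : ℝ) < ((q ^ 1980 : ℕ) : ℝ) := by
          have h4 : (i : ℝ) < (b : ℝ) := by exact_mod_cast hi.2
          have h5 : (b : ℝ) ≤ y / h := Nat.floor_le (div_nonneg (by
                have h3 : 0 ≤ qi q 1970 := by unfold qi; positivity
                linarith) hh0.le)
          linarith
        exact_mod_cast h3
      refine le_trans ?_ hcard
      apply mul_le_mul_of_nonneg_right _ (by positivity)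
      rw [Nat.card_Ico, Nat.cast_sub hab]
      linarith
    · -- upper bound
      set a := ⌈x / h⌉₊ with ha
      set b := ⌈y / h⌉₊ with hb
      have hyx : y / h - x / h = r := by rw [hr, sub_div]
      have hy0 : 0 ≤ y := by
        have h3 : 0 ≤ qi q 1970 := by unfold qi; positivity
        linarith
      have hb1 : (b : ℝ) < y / h + 1 := Nat.ceil_lt_add_one (div_nonneg hy0 hh0.le)
      have ha1 : x / h ≤ (a : ℝ) := Nat.le_ceil _
      have ha2 : (a : ℝ) ≤ ((a - 1 : ℕ) : ℝ) + 1 := by
        have : a ≤ (a - 1) + 1 := by omega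
        exact_mod_cast this
      have hbQ : b ≤ q ^ 1980 := Nat.ceil_le.mpr hyQ
      have hsub : S ⊆ (Finset.Ico (a - 1) b).biUnion Ce := by
        intro t ht
        rw [hS, Finset.mem_filter] at ht
        rw [Finset.mem_biUnion]
        have h0 : 0 < θ t / h := div_pos (hθ t).1 hh0
        set c := ⌈θ t / h⌉₊ with hc
        have hc1 : 1 ≤ c := Nat.ceil_pos.mpr h0
        have hc2 : (c : ℝ) < θ t / h + 1 := Nat.ceil_lt_add_one h0.le
        have hc3 : θ t / h ≤ (c : ℝ) := Nat.le_ceil _
        have hca : a ≤ c := Nat.ceil_mono (div_le_div_of_nonneg_right ht.2.2.1 hh0.le)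
        have hcb : c ≤ b := Nat.ceil_mono (div_le_div_of_nonneg_right ht.2.2.2 hh0.le)
        refine ⟨c - 1, Finset.mem_Ico.mpr ⟨by omega, by omega⟩, ?_⟩
        rw [hCe, Finset.mem_filter]
        have hcast : ((c - 1 : ℕ) : ℝ) = (c : ℝ) - 1 := by
          rw [Nat.cast_sub hc1, Nat.cast_one]
        refine ⟨Finset.mem_univ _, ht.2.1, ?_, ?_⟩
        · rw [hcast, ← lt_div_iff₀ hh0]
          linarith
        · rw [hcast, ← div_le_iff₀ hh0]
          linarith
      have hcard : (S.card : ℝ) ≤ ((Finset.Ico (a - 1) b).card : ℝ) * (101 / 100 * (n / Q)) := by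
        have h1 : S.card ≤ ∑ i ∈ Finset.Ico (a - 1) b, (Ce i).card :=
          (Finset.card_le_card hsub).trans Finset.card_biUnion_le
        have h2 : (S.card : ℝ) ≤ ∑ i ∈ Finset.Ico (a - 1) b, ((Ce i).card : ℝ) := by
          exact_mod_cast h1
        refine h2.trans ?_
        rw [← nsmul_eq_mul, ← Finset.sum_const]
        apply Finset.sum_le_sum
        intro i hi
        rw [Finset.mem_Ico] at hi
        exact (hC i (by omega)).2
      refine hcard.trans ?_
      apply mul_le_mul_of_nonneg_right _ (by positivity)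
      rw [Nat.card_Ico]
      rcases le_total (a - 1) b with hab | hab
      · rw [Nat.cast_sub hab]
        linarith
      · rw [Nat.sub_eq_zero_of_le hab, Nat.cast_zero]
        linarith
  have hM0 : 0 ≤ (m : ℝ) ^ 2 / 8 := by positivity
  set M : ℝ := (m : ℝ) ^ 2 / 8 with hM
  rw [← hrQ]
  have hMQ : 0 ≤ M * (r / Q) := mul_nonneg hM0 (div_nonneg (by linarith) hQ0.le)
  constructor
  · refine le_trans ?_ key.1
    calc 49 / 50 * (M * (r / Q)) ≤ 9999 / 10000 * (99 / 100 * (9999 / 10000)) * (M * (r / Q)) := by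
          apply mul_le_mul_of_nonneg_right _ hMQ
          norm_num
      _ = (9999 / 10000 * r) * (99 / 100 * (9999 / 10000 * M / Q)) := by ring
      _ ≤ (r - 2) * (99 / 100 * (n / Q)) := by
          apply mul_le_mul (by linarith) _ (by positivity) (by linarith)
          apply mul_le_mul_of_nonneg_left _ (by norm_num)
          exact div_le_div_of_nonneg_right hn1 hQ0.le
  · refine key.2.trans ?_
    calc (r + 2) * (101 / 100 * (n / Q))
        ≤ (10001 / 10000 * r) * (101 / 100 * (10001 / 10000 * M / Q)) := by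
          apply mul_le_mul (by linarith) _ (by positivity) (by linarith)
          apply mul_le_mul_of_nonneg_left _ (by norm_num)
          exact div_le_div_of_nonneg_right hn2 hQ0.le
      _ = 10001 / 10000 * (101 / 100 * (10001 / 10000)) * (M * (r / Q)) := by ring
      _ ≤ 51 / 50 * (M * (r / Q)) := by
          apply mul_le_mul_of_nonneg_right _ hMQ
          norm_num

end Pool.Agent.Helper72.RA.CELLREG
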