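import Pool.Agent.Helper72.RA.Defs

set_option autoImplicit false

namespace Pool.Agent.Helper72.RA.CHERN

open Real Finset MeasureTheory Filter ProbabilityTheory

open scoped Classical

instance unif_prob : IsProbabilityMeasure unif := by
  constructor
  unfold unif
  rw [Measure.smul_apply, Measure.restrict_apply MeasurableSet.univ, Set.univ_inter,
    Real.volume_Ioo, sub_zero, smul_eq_mul]
  exact ENNReal.inv_mul_cancel (by simp [Real.pi_pos]) ENNReal.ofReal_ne_top

/-- number of hits -/
noncomputable def hit {N : ℕ} (I : Finset (Fin N)) (A : Set ℝ) (θ : Fin N → ℝ) : ℝ :=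
  ∑ t ∈ I, A.indicator (fun _ => (1 : ℝ)) (θ t)

theorem hit_eq {N : ℕ} (I : Finset (Fin N)) (A : Set ℝ) (θ : Fin N → ℝ) :
    ((I.filter fun t => θ t ∈ A).card : ℝ) = hit I A θ := by
  unfold hit
  rw [Finset.card_filter]
  push_cast
  refine Finset.sum_congr rfl fun t _ => ?_
  by_cases h : θ t ∈ A
  · simp [h]
  · simp [h]

theorem hit_meas {N : ℕ} (I : Finset (Fin N)) (A : Set ℝ) (hA : MeasurableSet A) :
    Measurable (hit I A) := by
  unfold hit
  refine Finset.measurable_sum _ fun t _ => ?_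
  exact (measurable_const.indicator hA).comp (measurable_pi_apply t)

theorem hit_nonneg {N : ℕ} (I : Finset (Fin N)) (A : Set ℝ) (θ : Fin N → ℝ) :
    0 ≤ hit I A θ := by
  rw [← hit_eq]
  exact Nat.cast_nonneg _

theorem hit_le {N : ℕ} (I : Finset (Fin N)) (A : Set ℝ) (θ : Fin N → ℝ) :
    hit I A θ ≤ I.card := by
  rw [← hit_eq]
  exact_mod_cast Finset.card_filter_le _ _

theorem integrable_exp_hit {N : ℕ} (I : Finset (Fin N)) (A : Set ℝ) (hA : MeasurableSet A)
    (s : ℝ) : Integrable (fun θ => exp (s * hit I A θ))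
      (Measure.pi fun _ : Fin N => unif) := by
  have hm : Measurable fun θ : Fin N → ℝ => exp (s * hit I A θ) :=
    Real.measurable_exp.comp ((hit_meas I A hA).const_mul s)
  refine Integrable.of_bound hm.aestronglyMeasurable (exp (|s| * I.card)) ?_
  refine ae_of_all _ fun θ => ?_
  rw [Real.norm_eq_abs, abs_of_pos (exp_pos _), exp_le_exp]
  calc s * hit I A θ ≤ |s| * hit I A θ :=
        mul_le_mul_of_nonneg_right (le_abs_self s) (hit_nonneg I A θ)
    _ ≤ |s| * I.card := mul_le_mul_of_nonneg_left (hit_le I A θ) (abs_nonneg s)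

theorem integral_one (A : Set ℝ) (hA : MeasurableSet A) (s : ℝ) :
    ∫ x, exp (s * A.indicator (fun _ => (1 : ℝ)) x) ∂unif =
      1 + (unif A).toReal * (exp s - 1) := by
  have h1 : (fun x => exp (s * A.indicator (fun _ => (1 : ℝ)) x)) =
      fun x => 1 + A.indicator (fun _ => (exp s - 1)) x := by
    funext x
    by_cases h : x ∈ A
    · simp [h]
    · simp [h]
  rw [h1, integral_add (integrable_const 1) ((integrable_const _).indicator hA),
    integral_indicator_const _ hA]
  simp [Measure.real]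

theorem mgf_hit {N : ℕ} (I : Finset (Fin N)) (A : Set ℝ) (hA : MeasurableSet A) (s : ℝ) :
    mgf (hit I A) (Measure.pi fun _ : Fin N => unif) s =
      (1 + (unif A).toReal * (exp s - 1)) ^ I.card := by
  unfold mgf
  have h1 : (fun θ : Fin N → ℝ => exp (s * hit I A θ)) = fun θ : Fin N → ℝ =>
      ∏ i, (if i ∈ I then (fun x => exp (s * A.indicator (fun _ => (1 : ℝ)) x))
        else fun _ => 1) (θ i) := by
    funext θ
    unfold hit
    rw [Finset.mul_sum, Real.exp_sum]
    have h2 : ∀ i, (if i ∈ I then (fun x => exp (s * A.indicator (fun _ => (1 : ℝ)) x))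
        else fun _ => 1) (θ i) =
        if i ∈ I then exp (s * A.indicator (fun _ => (1 : ℝ)) (θ i)) else 1 := by
      intro i
      split_ifs <;> rfl
    simp only [h2]
    rw [Finset.prod_ite_mem, Finset.univ_inter]
  rw [h1, integral_fintype_prod_eq_prod (𝕜 := ℝ) (fun (i : Fin N) =>
    (if i ∈ I then (fun x => exp (s * A.indicator (fun _ => (1 : ℝ)) x)) else fun _ => 1))]
  have h3 : ∀ i : Fin N, (∫ x, (if i ∈ I then
      (fun x => exp (s * A.indicator (fun _ => (1 : ℝ)) x)) else fun _ => 1) x ∂unif) =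
      if i ∈ I then (1 + (unif A).toReal * (exp s - 1)) else 1 := by
    intro i
    split_ifs with h
    · exact integral_one A hA s
    · simp
  simp only [h3]
  rw [Finset.prod_ite_mem, Finset.univ_inter, Finset.prod_const]

theorem mgf_le {N : ℕ} (I : Finset (Fin N)) (A : Set ℝ) (hA : MeasurableSet A) (s : ℝ) :
    mgf (hit I A) (Measure.pi fun _ : Fin N => unif) s ≤
      exp (I.card * (unif A).toReal * (exp s - 1)) := by
  rw [mgf_hit I A hA, mul_assoc, Real.exp_nat_mul]
  have hp0 : 0 ≤ (unif A).toReal := ENNReal.toReal_nonneg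
  have hp1 : (unif A).toReal ≤ 1 := by
    have : unif A ≤ 1 := prob_le_one
    exact ENNReal.toReal_le_of_le_ofReal zero_le_one (by simpa using this)
  apply pow_le_pow_left₀
  · have h1 : 0 < exp s := exp_pos s
    nlinarith
  · rw [add_comm]
    exact Real.add_one_le_exp _

theorem exp_quad (s : ℝ) (hs : |s| ≤ 2 / 3) : exp s - 1 - s ≤ 3 / 4 * s ^ 2 := by
  have h1 := Real.exp_bound (x := s) (by linarith) (n := 3) (by norm_num)
  simp only [Finset.sum_range_succ, Finset.sum_range_zero] at h1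
  norm_num [Nat.factorial] at h1
  have h2 := (abs_le.mp h1).2
  have h3 : |s| ^ 3 ≤ 2 / 3 * s ^ 2 := by
    have : |s| ^ 3 = |s| * s ^ 2 := by rw [← sq_abs s]; ring
    rw [this]
    exact mul_le_mul_of_nonneg_right hs (sq_nonneg s)
  nlinarith [sq_nonneg s]

theorem st_CHERN : ST_CHERN := by
  intro N I A lam hA h0 h1
  set p : ℝ := (unif A).toReal with hp
  set k : ℝ := (I.card : ℝ) with hk
  set μ : Measure (Fin N → ℝ) := Measure.pi fun _ : Fin N => unif with hμ
  have hp0 : 0 ≤ p := ENNReal.toReal_nonneg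
  have hk0 : 0 ≤ k := Nat.cast_nonneg _
  have hkp : 0 ≤ k * p := mul_nonneg hk0 hp0
  have hup : μ.real {θ | k * p + lam * (k * p) ≤ hit I A θ} ≤ exp (-(lam ^ 2 * (k * p) / 3)) := by
    refine (measure_ge_le_exp_mul_mgf (μ := μ) (X := hit I A) (t := 2 / 3 * lam) _ (by linarith)
      (integrable_exp_hit I A hA _)).trans ?_
    refine (mul_le_mul_of_nonneg_left (mgf_le I A hA _) (exp_pos _).le).trans ?_
    rw [← exp_add, exp_le_exp]
    have h2 := exp_quad (2 / 3 * lam) (by rw [abs_of_nonneg (by linarith)]; linarith)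
    have h3 := mul_le_mul_of_nonneg_left h2 hkp
    nlinarith
  have hdn : μ.real {θ | hit I A θ ≤ k * p - lam * (k * p)} ≤
      exp (-(lam ^ 2 * (k * p) / 3)) := by
    refine (measure_le_le_exp_mul_mgf (μ := μ) (X := hit I A) (t := -(2 / 3 * lam)) _
      (by linarith) (integrable_exp_hit I A hA _)).trans ?_
    refine (mul_le_mul_of_nonneg_left (mgf_le I A hA _) (exp_pos _).le).trans ?_
    rw [← exp_add, exp_le_exp]
    have h2 := exp_quad (-(2 / 3 * lam)) (by rw [abs_neg, abs_of_nonneg (by linarith)]; linarith)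
    have h3 := mul_le_mul_of_nonneg_left h2 hkp
    nlinarith
  have hsub : {θ : Fin N → ℝ | lam * (k * p) <
      |((I.filter fun t => θ t ∈ A).card : ℝ) - k * p|} ⊆
      {θ | k * p + lam * (k * p) ≤ hit I A θ} ∪ {θ | hit I A θ ≤ k * p - lam * (k * p)} := by
    intro θ hθ
    simp only [Set.mem_setOf_eq] at hθ
    rw [hit_eq] at hθ
    rcases lt_abs.mp hθ with h | h
    · left
      simp only [Set.mem_setOf_eq]
      linarith
    · right
      simp only [Set.mem_setOf_eq]
      linarith
  have hfin : ∀ S : Set (Fin N → ℝ), μ.real S ≤ exp (-(lam ^ 2 * (k * p) / 3)) →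
      μ S ≤ ENNReal.ofReal (exp (-(lam ^ 2 * (k * p) / 3))) := by
    intro S hS
    rw [← ENNReal.ofReal_toReal (measure_ne_top μ S)]
    exact ENNReal.ofReal_le_ofReal hS
  calc μ {θ : Fin N → ℝ | lam * (k * p) < |((I.filter fun t => θ t ∈ A).card : ℝ) - k * p|}
      ≤ μ ({θ | k * p + lam * (k * p) ≤ hit I A θ} ∪
          {θ | hit I A θ ≤ k * p - lam * (k * p)}) := measure_mono hsub
    _ ≤ μ {θ | k * p + lam * (k * p) ≤ hit I A θ} +
          μ {θ | hit I A θ ≤ k * p - lam * (k * p)} := measure_union_le _ _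
    _ ≤ ENNReal.ofReal (exp (-(lam ^ 2 * (k * p) / 3))) +
          ENNReal.ofReal (exp (-(lam ^ 2 * (k * p) / 3))) :=
        add_le_add (hfin _ hup) (hfin _ hdn)
    _ = ENNReal.ofReal (2 * exp (-(lam ^ 2 * (k * p) / 3))) := by
        rw [← ENNReal.ofReal_add (exp_pos _).le (exp_pos _).le]
        congr 1
        ring

end Pool.Agent.Helper72.RA.CHERN
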