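import Pool.Agent.Helper72.RA.Defs

set_option autoImplicit false

namespace Pool.Agent.Helper72.RA.PCELL

open Real Finset MeasureTheory Filter

open scoped Classical

theorem unif_Ioc (x y : ℝ) (hx : 0 ≤ x) (hy : y ≤ π) :
    unif (Set.Ioc x y) = ENNReal.ofReal ((y - x) / π) := by
  unfold unif
  have h1 : (volume.restrict (Set.Ioo 0 π) : Measure ℝ) = volume.restrict (Set.Ioc 0 π) :=
    Measure.restrict_congr_set Ioo_ae_eq_Ioc
  rw [h1, Measure.smul_apply, Measure.restrict_apply measurableSet_Ioc,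
    Set.inter_eq_self_of_subset_left (Set.Ioc_subset_Ioc hx hy), Real.volume_Ioc, smul_eq_mul,
    ENNReal.ofReal_div_of_pos Real.pi_pos, ENNReal.div_eq_inv_mul]

theorem card_class (n j : ℕ) (hj : j < 4) :
    n / 4 ≤ (univ.filter fun t : Fin n => (t : ℕ) % 4 = j).card := by
  have h1 : (univ : Finset (Fin (n / 4))).card = n / 4 := by simp
  rw [← h1]
  apply Finset.card_le_card_of_injOn (fun s : Fin (n / 4) => (⟨4 * s + j, by omega⟩ : Fin n))
  · intro s _
    simp only [Finset.coe_filter, Finset.mem_univ, true_and, Set.mem_ofPred_eq]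
    omega
  · intro s _ s' _ h
    have := congrArg Fin.val h
    simp only at this
    exact Fin.ext (by omega)

theorem card_class' (q m j : ℕ) (hj : j < 4) (hq : 2 ≤ q) (hm : q ^ 1000 ≤ m) :
    (q : ℝ) ^ 2000 / 20 ≤
      ((univ.filter fun t : Fin (NN m) => (t : ℕ) % 4 = j).card : ℝ) := by
  have h0 : 1024 ≤ m := by
    calc 1024 = 2 ^ 10 := by norm_num
      _ ≤ q ^ 10 := Nat.pow_le_pow_left hq 10
      _ ≤ q ^ 1000 := Nat.pow_le_pow_right (by omega) (by norm_num)
      _ ≤ m := hm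
  have h1 := card_class (NN m) j hj
  have h2 : m.choose 2 * 2 = m * (m - 1) := by
    rw [Nat.choose_two_right]
    exact Nat.div_mul_cancel (Nat.even_mul_pred_self m).two_dvd
  obtain ⟨k, rfl⟩ : ∃ k, m = k + 1 := ⟨m - 1, by omega⟩
  simp only [Nat.add_sub_cancel] at h2
  have h3 : (k + 1) * (k + 1) ≤ 20 * (NN (k + 1) / 4) := by
    have h4 : NN (k + 1) + 1 = (k + 1).choose 2 := by
      unfold NN
      have : 1 ≤ (k + 1).choose 2 := by nlinarith
      omega
    have h5 : NN (k + 1) ≤ 4 * (NN (k + 1) / 4) + 3 := by omega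
    nlinarith
  have h6 : (q : ℝ) ^ 2000 ≤ ((k + 1 : ℕ) : ℝ) * ((k + 1 : ℕ) : ℝ) := by
    have : ((q : ℝ) ^ 1000) ≤ ((k + 1 : ℕ) : ℝ) := by exact_mod_cast hm
    calc (q : ℝ) ^ 2000 = (q : ℝ) ^ 1000 * (q : ℝ) ^ 1000 := by rw [← pow_add]
      _ ≤ _ := mul_le_mul this this (by positivity) (by positivity)
  have h7 : (((k + 1) * (k + 1) : ℕ) : ℝ) ≤ ((20 * (NN (k + 1) / 4) : ℕ) : ℝ) := by
    exact_mod_cast h3
  have h8 : ((NN (k + 1) / 4 : ℕ) : ℝ) ≤
      ((univ.filter fun t : Fin (NN (k + 1)) => (t : ℕ) % 4 = j).card : ℝ) := by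
    exact_mod_cast h1
  push_cast at h6 h7
  linarith

theorem lim (ε : ENNReal) (hε : 0 < ε) : ∀ᶠ q : ℕ in atTop,
    ENNReal.ofReal (8 * ((q : ℝ) ^ 1980 / exp (1 / 600000 * (q : ℝ)))) ≤ ε := by
  have h1 : Tendsto (fun x : ℝ => x ^ 1980 / exp (1 / 600000 * x)) atTop (nhds 0) :=
    (isLittleO_pow_exp_pos_mul_atTop (k := 1980) (b := 1 / 600000) (by norm_num)).tendsto_div_nhds_zero
  have h2 : Tendsto (fun q : ℕ => ENNReal.ofReal
      (8 * ((q : ℝ) ^ 1980 / exp (1 / 600000 * (q : ℝ))))) atTop (nhds 0) := by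
    have h3 := (h1.comp (tendsto_natCast_atTop_atTop (R := ℝ))).const_mul 8
    rw [mul_zero] at h3
    have h4 := ENNReal.tendsto_ofReal h3
    rw [ENNReal.ofReal_zero] at h4
    exact h4
  exact h2.eventually_le_const hε

theorem st_PCELL (hC : ST_CHERN) : ST_PCELL := by
  intro ε hε
  filter_upwards [lim ε hε, eventually_ge_atTop 2] with q hq hq2 m hm1 hm2
  refine le_trans ?_ hq
  set μ : Measure (Fin (NN m) → ℝ) := Measure.pi fun _ : Fin (NN m) => unif with hμ
  set Q : ℕ := q ^ 1980 with hQ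
  have hq0 : (0 : ℝ) < q := by positivity
  have hQ0 : (0 : ℝ) < (q : ℝ) ^ 1980 := by positivity
  obtain ⟨I, hI⟩ : ∃ I : ℕ → Finset (Fin (NN m)),
      ∀ j, I j = univ.filter fun t : Fin (NN m) => (t : ℕ) % 4 = j := ⟨_, fun _ => rfl⟩
  obtain ⟨A, hA⟩ : ∃ A : ℕ → Set ℝ, ∀ i, A i = Set.Ioc ((i : ℝ) * (π / (q : ℝ) ^ 1980))
    (((i : ℝ) + 1) * (π / (q : ℝ) ^ 1980)) := ⟨_, fun _ => rfl⟩
  have hp : ∀ i < Q, (unif (A i)).toReal = 1 / (q : ℝ) ^ 1980 := by
    intro i hi
    have hi' : (i : ℝ) + 1 ≤ (q : ℝ) ^ 1980 := by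
      have : i + 1 ≤ q ^ 1980 := hi
      exact_mod_cast this
    have hπ := Real.pi_pos
    rw [hA, unif_Ioc _ _ (by positivity) (by
        rw [mul_div_assoc', div_le_iff₀ hQ0, mul_comm π]
        exact mul_le_mul_of_nonneg_right hi' hπ.le),
      ENNReal.toReal_ofReal (by
        apply div_nonneg _ hπ.le
        nlinarith [div_pos hπ hQ0])]
    field_simp
    ring
  have hb : ∀ j < 4, ∀ i < Q, μ {θ | 1 / 100 * ((I j).card * (unif (A i)).toReal) <
      |(((I j).filter fun t => θ t ∈ A i).card : ℝ) - (I j).card * (unif (A i)).toReal|} ≤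
      ENNReal.ofReal (2 * exp (-(1 / 600000 * (q : ℝ)))) := by
    intro j hj i hi
    refine (hC (NN m) (I j) (A i) (1 / 100) (by rw [hA]; exact measurableSet_Ioc)
      (by norm_num) (by norm_num)).trans ?_
    apply ENNReal.ofReal_le_ofReal
    apply mul_le_mul_of_nonneg_left _ (by norm_num)
    rw [exp_le_exp, neg_le_neg_iff, hp i hi]
    have h1 := card_class' q m j hj hq2 hm1
    rw [← hI] at h1
    have h2 : (q : ℝ) ^ 20 / 20 ≤ ((I j).card : ℝ) * (1 / (q : ℝ) ^ 1980) := by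
      rw [mul_one_div, le_div_iff₀ hQ0]
      calc (q : ℝ) ^ 20 / 20 * (q : ℝ) ^ 1980 = (q : ℝ) ^ 2000 / 20 := by
            rw [div_mul_eq_mul_div, ← pow_add]
        _ ≤ _ := h1
    have h3 : (q : ℝ) ≤ (q : ℝ) ^ 20 := by
      apply le_self_pow₀ _ (by norm_num)
      have : (2 : ℝ) ≤ q := by exact_mod_cast hq2
      linarith
    linarith
  have hsub : {θ : Fin (NN m) → ℝ | ¬ CellReg q m θ} ⊆
      ⋃ j ∈ Finset.range 4, ⋃ i ∈ Finset.range Q,
        {θ | 1 / 100 * ((I j).card * (unif (A i)).toReal) <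
        |(((I j).filter fun t => θ t ∈ A i).card : ℝ) - (I j).card * (unif (A i)).toReal|} := by
    intro θ hθ
    simp only [Set.mem_ofPred_eq, CellReg] at hθ
    push Not at hθ
    obtain ⟨j, hj, i, hi, h⟩ := hθ
    simp only [Set.mem_iUnion, Finset.mem_range]
    refine ⟨j, hj, i, hi, ?_⟩
    simp only [Set.mem_ofPred_eq]
    rw [hp i hi]
    have he : (univ.filter fun t : Fin (NN m) => (t : ℕ) % 4 = j ∧
        (i : ℝ) * (π / (q : ℝ) ^ 1980) < θ t ∧
        θ t ≤ ((i : ℝ) + 1) * (π / (q : ℝ) ^ 1980)) = (I j).filter fun t => θ t ∈ A i := by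
      ext t
      simp only [hI, hA, Finset.mem_filter, Finset.mem_univ, true_and, Set.mem_Ioc]
    rw [he, ← hI] at h
    simpa only [mul_one_div] using h
  calc μ {θ : Fin (NN m) → ℝ | ¬ CellReg q m θ}
      ≤ μ (⋃ j ∈ Finset.range 4, ⋃ i ∈ Finset.range Q,
        {θ | 1 / 100 * ((I j).card * (unif (A i)).toReal) <
        |(((I j).filter fun t => θ t ∈ A i).card : ℝ) -
          (I j).card * (unif (A i)).toReal|}) := measure_mono hsub
    _ ≤ ∑ j ∈ Finset.range 4, ∑ i ∈ Finset.range Q,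
        ENNReal.ofReal (2 * exp (-(1 / 600000 * (q : ℝ)))) := by
        refine (measure_biUnion_finset_le _ _).trans (Finset.sum_le_sum fun j hj => ?_)
        refine (measure_biUnion_finset_le _ _).trans (Finset.sum_le_sum fun i hi => ?_)
        exact hb j (Finset.mem_range.mp hj) i (Finset.mem_range.mp hi)
    _ = ENNReal.ofReal (8 * ((q : ℝ) ^ 1980 / exp (1 / 600000 * (q : ℝ)))) := by
        rw [Finset.sum_const, Finset.sum_const, Finset.card_range, Finset.card_range,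
          nsmul_eq_mul, nsmul_eq_mul, ← ENNReal.ofReal_natCast, ← ENNReal.ofReal_natCast Q,
          ← ENNReal.ofReal_mul (by positivity), ← ENNReal.ofReal_mul (by positivity)]
        congr 1
        rw [Real.exp_neg, hQ]
        push_cast
        ring

end Pool.Agent.Helper72.RA.PCELL
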