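import Pool.Agent.Helper72.RA.Defs

set_option autoImplicit false

namespace Pool.Agent.Helper72.RA.PROB

open Real Finset MeasureTheory Filter

open scoped Classical

instance unif_prob : IsProbabilityMeasure unif := by
  constructor
  unfold unif
  rw [Measure.smul_apply, Measure.restrict_apply MeasurableSet.univ, Set.univ_inter,
    Real.volume_Ioo, sub_zero, smul_eq_mul]
  exact ENNReal.inv_mul_cancel (by simp [Real.pi_pos]) ENNReal.ofReal_ne_top

theorem unif_Iic : unif (Set.Iic 0) = 0 := by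
  unfold unif
  rw [Measure.smul_apply, Measure.restrict_apply measurableSet_Iic]
  have : Set.Iic (0 : ℝ) ∩ Set.Ioo 0 π = ∅ := by
    ext x
    simp only [Set.mem_inter_iff, Set.mem_Iic, Set.mem_Ioo, Set.mem_empty_iff_false, iff_false]
    rintro ⟨h1, h2, _⟩
    linarith
  rw [this, measure_empty, smul_zero]

theorem unif_Ici (x : ℝ) : unif (Set.Ici (π - x)) ≤ ENNReal.ofReal (x / π) := by
  unfold unif
  rw [Measure.smul_apply, Measure.restrict_apply measurableSet_Ici, smul_eq_mul,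
    ENNReal.ofReal_div_of_pos Real.pi_pos, ENNReal.div_eq_inv_mul]
  apply mul_le_mul_right
  calc volume (Set.Ici (π - x) ∩ Set.Ioo 0 π) ≤ volume (Set.Ico (π - x) π) := by
        apply measure_mono
        rintro y ⟨h1, h2⟩
        exact ⟨h1, h2.2⟩
    _ = ENNReal.ofReal x := by
        rw [Real.volume_Ico]
        congr 1
        ring

theorem marg {N : ℕ} (t : Fin N) (A : Set ℝ) (hA : MeasurableSet A) :
    (Measure.pi fun _ : Fin N => unif) {θ | θ t ∈ A} = unif A :=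
  (measurePreserving_eval (fun _ : Fin N => unif) t).measure_preimage hA.nullMeasurableSet

theorem marg_union {N : ℕ} (A : Set ℝ) (hA : MeasurableSet A) :
    (Measure.pi fun _ : Fin N => unif) {θ | ∃ t, θ t ∈ A} ≤ N * unif A := by
  have h1 : {θ : Fin N → ℝ | ∃ t, θ t ∈ A} = ⋃ t, {θ | θ t ∈ A} := by
    ext θ
    simp
  rw [h1]
  refine (measure_iUnion_fintype_le _ _).trans ?_
  simp only [marg _ A hA]
  rw [Finset.sum_const, Finset.card_univ, Fintype.card_fin, nsmul_eq_mul]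

theorem small (ε : ENNReal) (hε : 0 < ε) : ∀ᶠ q : ℕ in atTop,
    ENNReal.ofReal (1 / (q : ℝ)) ≤ ε := by
  have h1 : Tendsto (fun q : ℕ => ENNReal.ofReal (1 / (q : ℝ))) atTop (nhds 0) := by
    have h4 := ENNReal.tendsto_ofReal (tendsto_one_div_atTop_nhds_zero_nat (𝕜 := ℝ))
    rw [ENNReal.ofReal_zero] at h4
    exact h4
  exact h1.eventually_le_const hε

theorem st_PROB (h1 : ST_PCELL) (h2 : ST_CELLREG) (h3 : ST_PSUPP) : ST_PROB := by
  intro ε hε
  have hδ : 0 < ε / 2 := ENNReal.div_pos hε.ne' (by norm_num)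
  have hδ' : 0 < ε / 2 / 2 := ENNReal.div_pos hδ.ne' (by norm_num)
  filter_upwards [h1 _ hδ', h2, h3 _ hδ', small _ hδ, eventually_ge_atTop 2]
    with q hq1 hq2 hq3 hq4 hq m hm1 hm2
  set μ : Measure (Fin (NN m) → ℝ) := Measure.pi fun _ : Fin (NN m) => unif with hμ
  have hq0 : (0 : ℝ) < q := by
    have : 0 < q := by omega
    exact_mod_cast this
  have hqi : 0 < qi q 2005 := by unfold qi; positivity
  have hsub : {θ : Fin (NN m) → ℝ | ¬ Good q m θ} ⊆
      (({θ | ∃ t, θ t ∈ Set.Iic (0 : ℝ)} ∪ {θ | ∃ t, θ t ∈ Set.Ici (π - qi q 2005)}) ∪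
        {θ | ¬ CellReg q m θ}) ∪
      {θ | CellReg q m θ ∧ ¬ ∀ z : ℕ, ((z : ℝ) + 1) * qi q 1401 ≤ π / 2 →
        ∃ t t' : Fin (NN m), (t : ℕ) % 4 = 0 ∧ (t' : ℕ) % 4 = 1 ∧
          (z : ℝ) * qi q 1401 ≤ θ t ∧ θ t < ((z : ℝ) + 1) * qi q 1401 ∧
          0 < π - θ t - θ t' ∧ π - θ t - θ t' < qi q 2530} := by
    intro θ hθ
    by_contra hc
    simp only [Set.mem_union, not_or] at hc
    obtain ⟨⟨⟨c1, c2⟩, c3⟩, c4⟩ := hc
    simp only [Set.mem_ofPred_eq, Set.mem_Iic, not_exists, not_le] at c1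
    simp only [Set.mem_ofPred_eq, Set.mem_Ici, not_exists, not_le] at c2
    have c3' : CellReg q m θ := by
      by_contra h
      exact c3 h
    have c4' := not_not.mp fun h => c4 ⟨c3', h⟩
    apply hθ
    refine ⟨c1, c2, ?_, c4'⟩
    exact hq2 m hm1 hm2 θ (fun t => ⟨c1 t, by linarith [c2 t]⟩) c3'
  have b1 : μ {θ | ∃ t, θ t ∈ Set.Iic (0 : ℝ)} = 0 := by
    rw [← nonpos_iff_eq_zero]
    refine (marg_union (Set.Iic (0 : ℝ)) measurableSet_Iic).trans ?_
    rw [unif_Iic, mul_zero]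
  have b2 : μ {θ | ∃ t, θ t ∈ Set.Ici (π - qi q 2005)} ≤ ε / 2 := by
    refine le_trans ?_ hq4
    refine (marg_union (Set.Ici (π - qi q 2005)) measurableSet_Ici).trans ?_
    refine (mul_le_mul_right (unif_Ici (qi q 2005)) _).trans ?_
    rw [← ENNReal.ofReal_natCast, ← ENNReal.ofReal_mul (Nat.cast_nonneg _)]
    apply ENNReal.ofReal_le_ofReal
    have hN : ((NN m : ℕ) : ℝ) ≤ 2 * (q : ℝ) ^ 2000 := by
      have hN1 : NN m ≤ m * m / 2 := by
        unfold NN
        rw [Nat.choose_two_right]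
        have : m * (m - 1) / 2 ≤ m * m / 2 :=
          Nat.div_le_div_right (Nat.mul_le_mul_left m (Nat.sub_le m 1))
        omega
      have hN2 : NN m * 2 ≤ m * m := by omega
      have hm' : (m : ℝ) ≤ 2 * (q : ℝ) ^ 1000 := by exact_mod_cast hm2
      have hN3 : ((NN m : ℕ) : ℝ) * 2 ≤ (m : ℝ) * m := by exact_mod_cast hN2
      have hN4 : (m : ℝ) * m ≤ (2 * (q : ℝ) ^ 1000) * (2 * (q : ℝ) ^ 1000) :=
        mul_le_mul hm' hm' (Nat.cast_nonneg _) (by positivity)
      have hN5 : (2 * (q : ℝ) ^ 1000) * (2 * (q : ℝ) ^ 1000) = 4 * (q : ℝ) ^ 2000 := by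
        have : (q : ℝ) ^ 2000 = (q : ℝ) ^ 1000 * (q : ℝ) ^ 1000 := by rw [← pow_add]
        rw [this]
        ring
      linarith
    have hq2' : (2 : ℝ) ≤ q := by exact_mod_cast hq
    have hqi2 : qi q 2005 = (1 / (q : ℝ)) * ((q : ℝ) ^ 2004)⁻¹ := by
      unfold qi
      have : (q : ℝ) ^ 2005 = q * (q : ℝ) ^ 2004 := by rw [← pow_succ']
      rw [this, mul_inv, one_div]
    have hq4' : (q : ℝ) ^ 2000 * 2 ≤ (q : ℝ) ^ 2004 := by
      have h5 : (q : ℝ) ^ 2004 = (q : ℝ) ^ 2000 * (q : ℝ) ^ 4 := by rw [← pow_add]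
      rw [h5]
      apply mul_le_mul_of_nonneg_left _ (by positivity)
      calc (2 : ℝ) ≤ 2 ^ 4 := by norm_num
        _ ≤ (q : ℝ) ^ 4 := pow_le_pow_left₀ (by norm_num) hq2' 4
    have hπ : (1 : ℝ) ≤ π := by linarith [Real.pi_gt_three]
    calc ((NN m : ℕ) : ℝ) * (qi q 2005 / π) ≤ ((NN m : ℕ) : ℝ) * qi q 2005 := by
          apply mul_le_mul_of_nonneg_left (div_le_self hqi.le hπ) (Nat.cast_nonneg _)
      _ ≤ (2 * (q : ℝ) ^ 2000) * qi q 2005 := mul_le_mul_of_nonneg_right hN hqi.le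
      _ = (1 / (q : ℝ)) * (((q : ℝ) ^ 2000 * 2) * ((q : ℝ) ^ 2004)⁻¹) := by rw [hqi2]; ring
      _ ≤ (1 / (q : ℝ)) * 1 := by
          apply mul_le_mul_of_nonneg_left _ (by positivity)
          rw [← div_eq_mul_inv, div_le_one (by positivity)]
          exact hq4'
      _ = 1 / (q : ℝ) := mul_one _
  calc μ {θ : Fin (NN m) → ℝ | ¬ Good q m θ}
      ≤ 0 + ε / 2 + ε / 2 / 2 + ε / 2 / 2 := by
        refine (measure_mono hsub).trans ?_
        refine (measure_union_le _ _).trans (add_le_add ?_ (hq3 m hm1 hm2))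
        refine (measure_union_le _ _).trans (add_le_add ?_ (hq1 m hm1 hm2))
        exact (measure_union_le _ _).trans (add_le_add b1.le b2)
    _ = ε := by
        rw [zero_add, add_assoc, ENNReal.add_halves, ENNReal.add_halves]

end Pool.Agent.Helper72.RA.PROB
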